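import Pool.Agent.V1181.HN.Field

/-!
# MP_1d723d_an: the lower bound `c_n ‖A‖_{H^4} ≤ ‖A‖_{H^1_*}` fails for `n = 7`
-/

set_option autoImplicit false

open MeasureTheory Metric Set Matrix

namespace Pool.Agent.Results.MP_1d723d_an.LowerBoundFails

open Pool.Agent.V1181.HN

/-- The Euclidean length `|A x|`. -/
noncomputable def len {n : ℕ} (A : Matrix (Fin n) (Fin n) ℝ) (x : EuclideanSpace ℝ (Fin n)) : ℝ :=
  √(∑ i, (∑ j, A i j * x j) ^ 2)

/-- `‖A‖_{H^p} = (E_x |A x|^p)^{1/p}`; here `sph n` is the normalized surface measure of the unit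
sphere of `ℝ^n` (Mathlib's surface measure `volume.toSphere` divided by its total mass). -/
noncomputable def Hn {n : ℕ} (p : ℝ) (A : Matrix (Fin n) (Fin n) ℝ) : ℝ :=
  (∫ x : sphere (0 : EuclideanSpace ℝ (Fin n)) 1, len A x ^ p ∂(sph n)) ^ (1 / p)

/-- The inner product `⟨A, B⟩ = tr (Aᵀ B) / n`. -/
noncomputable def ip {n : ℕ} (A B : Matrix (Fin n) (Fin n) ℝ) : ℝ :=
  (Aᵀ * B).trace / n

/-- The set whose supremum is the dual norm `‖A‖_{H^1_*}`. -/
def dualSet {n : ℕ} (A : Matrix (Fin n) (Fin n) ℝ) : Set ℝ :=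
  {r | ∃ B : Matrix (Fin n) (Fin n) ℝ, Hn 1 B ≤ 1 ∧ r = ip A B}

/-- The constant `c_n`. -/
noncomputable def c (n : ℕ) : ℝ :=
  2 ^ (5 / 4 : ℝ) / √Real.pi * (Real.Gamma ((n + 1) / 2) / Real.Gamma (n / 2)) *
    ((n + 2) ^ (1 / 4 : ℝ) / n ^ (3 / 4 : ℝ))

/-- the matrix -/
noncomputable def A₀ : Matrix (Fin 7) (Fin 7) ℝ := Matrix.of fun i j => 7 * M i j

theorem len_cont (B : Matrix (Fin 7) (Fin 7) ℝ) : Continuous (fun x : E 7 => len B x) := by
  unfold len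
  fun_prop

theorem sum_ip (B : Matrix (Fin 7) (Fin 7) ℝ) : ip A₀ B = ∑ i, ∑ j, M i j * B i j := by
  unfold ip A₀
  simp only [Matrix.trace, Matrix.diag, Matrix.mul_apply, Matrix.transpose_apply, Matrix.of_apply]
  rw [Finset.sum_comm]
  push_cast
  rw [Finset.sum_div]
  refine Finset.sum_congr rfl fun i _ => ?_
  rw [Finset.sum_div]
  refine Finset.sum_congr rfl fun j _ => ?_
  ring

theorem ip_le (B : Matrix (Fin 7) (Fin 7) ℝ) : ip A₀ B ≤ Hn 1 B := by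
  have h1 : ip A₀ B = ∫ x : sphere (0 : E 7) 1,
      ∑ i, ∑ j, phi (x : E 7) i * (x : E 7) j * B i j ∂(sph 7) := by
    rw [sum_ip]
    rw [integral_finsetSum (μ := sph 7) Finset.univ
      (f := fun (i : Fin 7) (x : sphere (0 : E 7) 1) =>
        ∑ j, phi (x : E 7) i * (x : E 7) j * B i j)]
    · refine Finset.sum_congr rfl fun i _ => ?_
      rw [integral_finsetSum (μ := sph 7) Finset.univ
        (f := fun (j : Fin 7) (x : sphere (0 : E 7) 1) =>
          phi (x : E 7) i * (x : E 7) j * B i j)]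
      · refine Finset.sum_congr rfl fun j _ => ?_
        unfold M
        rw [integral_mul_const]
      · intro j _
        exact integ (f := fun x => phi x i * x j * B i j)
          (((cont_phi i).mul (by fun_prop)).mul continuous_const)
    · intro i _
      refine integ (f := fun x => ∑ j, phi x i * x j * B i j) ?_
      exact continuous_finsetSum _ fun j _ =>
        ((cont_phi i).mul (by fun_prop)).mul continuous_const
  have h2 : Hn 1 B = ∫ x : sphere (0 : E 7) 1, len B x ∂(sph 7) := by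
    unfold Hn
    simp
  rw [h1, h2]
  refine integral_mono ?_ ?_ ?_
  · refine integ (f := fun x => ∑ i, ∑ j, phi x i * x j * B i j) ?_
    exact continuous_finsetSum _ fun i _ => continuous_finsetSum _ fun j _ =>
        ((cont_phi i).mul (by fun_prop)).mul continuous_const
  · exact integ (f := fun x => len B x) (len_cont B)
  · intro x
    show ∑ i, ∑ j, phi (x : E 7) i * (x : E 7) j * B i j ≤ len B x
    have e : ∑ i, ∑ j, phi (x : E 7) i * (x : E 7) j * B i j =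
        ∑ i, phi (x : E 7) i * ∑ j, B i j * (x : E 7) j := by
      refine Finset.sum_congr rfl fun i _ => ?_
      rw [Finset.mul_sum]
      refine Finset.sum_congr rfl fun j _ => ?_
      ring
    rw [e]
    have := Real.sum_mul_le_sqrt_mul_sqrt Finset.univ (fun i => phi (x : E 7) i)
      (fun i => ∑ j, B i j * (x : E 7) j)
    rw [phi_sq, Real.sqrt_one, one_mul] at this
    exact this

theorem len_A (x : sphere (0 : E 7) 1) : len A₀ x ^ (4 : ℝ) =
    ((7 * M 1 1) ^ 2 + ((7 * M 0 0) ^ 2 - (7 * M 1 1) ^ 2) * (x : E 7) 0 ^ 2) ^ 2 := by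
  have e : ∀ i, (∑ j, A₀ i j * (x : E 7) j) ^ 2 = (7 * M 1 1) ^ 2 * (x : E 7) i ^ 2 +
      if i = 0 then ((7 * M 0 0) ^ 2 - (7 * M 1 1) ^ 2) * (x : E 7) i ^ 2 else 0 := by
    intro i
    rw [Finset.sum_eq_single i]
    · show (7 * M i i * (x : E 7) i) ^ 2 = _
      split_ifs with hi
      · subst hi; ring
      · rw [M_swap hi (k := 1) (by decide)]; ring
    · intro j _ hj
      show 7 * M i j * (x : E 7) j = 0
      rw [M_off (Ne.symm hj)]; ring
    · intro h; exact absurd (Finset.mem_univ i) h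
  have h4 : ((4 : ℝ)) = ((4 : ℕ) : ℝ) := by norm_num
  rw [h4, Real.rpow_natCast]
  unfold len
  have hn : 0 ≤ ∑ i, (∑ j, A₀ i j * (x : E 7) j) ^ 2 := by positivity
  have h5 : √(∑ i, (∑ j, A₀ i j * (x : E 7) j) ^ 2) ^ 4 =
      (∑ i, (∑ j, A₀ i j * (x : E 7) j) ^ 2) ^ 2 := by
    rw [show (4 : ℕ) = 2 * 2 from rfl, pow_mul, Real.sq_sqrt hn]
  rw [h5]
  simp only [e, Finset.sum_add_distrib, ← Finset.mul_sum, sum_sq, Finset.sum_ite_eq',
      Finset.mem_univ, if_true]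
  ring

theorem quart (p q : ℝ) : ∫ x : sphere (0 : E 7) 1, (p + q * (x : E 7) 0 ^ 2) ^ 2 ∂(sph 7) =
    p ^ 2 + 2 * p * q / 7 + q ^ 2 / 21 := by
  rw [polar (fun u => (p + q * u ^ 2) ^ 2)
    (fun u => p ^ 2 * u + (2 * p * q - 2 * p ^ 2) / 3 * u ^ 3 +
      (q ^ 2 - 4 * p * q + p ^ 2) / 5 * u ^ 5 + (2 * p * q - 2 * q ^ 2) / 7 * u ^ 7 +
      q ^ 2 / 9 * u ^ 9) (by fun_prop) ?_]
  · ring
  · intro u
    have := (((((hasDerivAt_id u).const_mul (p ^ 2)).add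
      ((hasDerivAt_pow 3 u).const_mul ((2 * p * q - 2 * p ^ 2) / 3))).add
      ((hasDerivAt_pow 5 u).const_mul ((q ^ 2 - 4 * p * q + p ^ 2) / 5))).add
      ((hasDerivAt_pow 7 u).const_mul ((2 * p * q - 2 * q ^ 2) / 7))).add
      ((hasDerivAt_pow 9 u).const_mul (q ^ 2 / 9))
    refine this.congr_deriv ?_
    push_cast
    ring

theorem H4_A : ∃ K : ℝ, 0 ≤ K ∧ Hn 4 A₀ = K ^ (1 / 4 : ℝ) ∧
    K = ((7 * M 0 0) ^ 4 + 4 * (7 * M 0 0) ^ 2 * (7 * M 1 1) ^ 2 + 16 * (7 * M 1 1) ^ 4) / 21 := by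
  refine ⟨_, ?_, ?_, rfl⟩
  · positivity
  · unfold Hn
    simp only [len_A]
    rw [quart]
    congr 1
    ring

theorem gamma_ratio : Real.Gamma (((7 : ℕ) + 1) / 2) / Real.Gamma ((7 : ℕ) / 2) =
    16 / 5 / √Real.pi := by
  have h4 : Real.Gamma (((7 : ℕ) + 1) / 2) = 6 := by
    rw [show ((((7 : ℕ) : ℝ) + 1) / 2) = ((3 : ℕ) : ℝ) + 1 by norm_num, Real.Gamma_nat_eq_factorial]
    norm_num [Nat.factorial]
  have h7 : Real.Gamma ((7 : ℕ) / 2) = 15 / 8 * √Real.pi := by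
    rw [show (((7 : ℕ) : ℝ) / 2) = 5 / 2 + 1 by norm_num, Real.Gamma_add_one (by norm_num),
      show ((5 : ℝ) / 2) = 3 / 2 + 1 by norm_num, Real.Gamma_add_one (by norm_num),
      show ((3 : ℝ) / 2) = 1 / 2 + 1 by norm_num, Real.Gamma_add_one (by norm_num),
      Real.Gamma_one_half_eq]
    ring
  rw [h4, h7]
  have : √Real.pi ≠ 0 := (Real.sqrt_pos.2 Real.pi_pos).ne'
  field_simp
  norm_num

theorem c_pow : c 7 ^ 4 = 18874368 / 214375 / Real.pi ^ 4 := by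
  unfold c
  rw [gamma_ratio]
  have e1 : ((2 : ℝ) ^ (5 / 4 : ℝ)) ^ 4 = 32 := by
    rw [← Real.rpow_natCast, ← Real.rpow_mul (by norm_num)]
    norm_num
  have e2 : ((((7 : ℕ) : ℝ) + 2) ^ (1 / 4 : ℝ)) ^ 4 = 9 := by
    rw [← Real.rpow_natCast, ← Real.rpow_mul (by norm_num)]
    norm_num
  have e3 : ((((7 : ℕ) : ℝ)) ^ (3 / 4 : ℝ)) ^ 4 = 343 := by
    rw [← Real.rpow_natCast, ← Real.rpow_mul (by norm_num)]
    norm_num
  have e4 : √Real.pi ^ 4 = Real.pi ^ 2 := by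
    rw [show (4 : ℕ) = 2 * 2 from rfl, pow_mul, Real.sq_sqrt Real.pi_pos.le]
  rw [mul_pow, mul_pow, div_pow, div_pow, div_pow, div_pow, e1, e2, e3, e4]
  have : Real.pi ≠ 0 := Real.pi_pos.ne'
  field_simp
  norm_num

theorem c_nonneg : 0 ≤ c 7 := by
  unfold c
  rw [gamma_ratio]
  positivity

theorem c_eq : c 7 = (18874368 / 214375 / Real.pi ^ 4) ^ (1 / 4 : ℝ) := by
  rw [← c_pow, ← Real.rpow_natCast, ← Real.rpow_mul c_nonneg]
  norm_num

theorem big : 1 < c 7 * Hn 4 A₀ := by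
  obtain ⟨K, hK0, hK, hKe⟩ := H4_A
  have hpi : Real.pi ^ 4 < 3.141593 ^ 4 := by
    have := Real.pi_lt_d6
    gcongr
  have hpi0 : 0 < Real.pi ^ 4 := by positivity
  have ha : 2.134340 ≤ 7 * M 0 0 := by
    rw [M_zero]
    have := boundA
    linarith
  have hb : 0.350901 ≤ 7 * M 1 1 := by
    rw [M_one]
    have := boundB
    linarith
  have hKl : ((2.134340 : ℝ) ^ 4 + 4 * 2.134340 ^ 2 * 0.350901 ^ 2 + 16 * 0.350901 ^ 4) / 21 ≤ K := by
    rw [hKe]
    gcongr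
  rw [hK, c_eq, ← Real.mul_rpow (by positivity) hK0]
  apply Real.one_lt_rpow _ (by norm_num)
  have h1 : (18874368 / 214375 / (3.141593 : ℝ) ^ 4) ≤ 18874368 / 214375 / Real.pi ^ 4 := by
    gcongr
  calc (1 : ℝ) < (18874368 / 214375 / (3.141593 : ℝ) ^ 4) *
        (((2.134340 : ℝ) ^ 4 + 4 * 2.134340 ^ 2 * 0.350901 ^ 2 + 16 * 0.350901 ^ 4) / 21) := by
        norm_num
    _ ≤ _ := by gcongr

/-- **Answer to Q1 (disproved).** For `n = 7` there is a real `7 × 7` matrix `A` whose dual norm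
`d = ‖A‖_{H^1_*}` (the least upper bound of the numbers `⟨A, B⟩` with `‖B‖_{H^1} ≤ 1`) is smaller
than `c_7 ‖A‖_{H^4}`. -/
theorem result : ∃ A : Matrix (Fin 7) (Fin 7) ℝ, ∃ d : ℝ,
    IsLUB (dualSet A) d ∧ d < c 7 * Hn 4 A := by
  have hne : (dualSet A₀).Nonempty := by
    refine ⟨ip A₀ 0, 0, ?_, rfl⟩
    unfold Hn len
    simp
  have hub : ∀ r ∈ dualSet A₀, r ≤ 1 := by
    rintro r ⟨B, hB, rfl⟩
    exact (ip_le B).trans hB
  refine ⟨A₀, sSup (dualSet A₀), isLUB_csSup hne ⟨1, hub⟩, ?_⟩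
  exact (csSup_le hne hub).trans_lt big

end Pool.Agent.Results.MP_1d723d_an.LowerBoundFails
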